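import Pool.Agent.W_59b51d_c25.Main

/-!
# Solvable word problems in varieties: the class is exactly `Π⁰₄`-complete

The class of the varieties of nonassociative algebras, given by computable sequences of identities,
all of whose finitely presented algebras have solvable word problem, is exactly `Π⁰₄`-complete,
already inside the metabelian varieties and with sums of multilinear monomials as identities.
-/

namespace Pool.Agent.Results.MP_59b51d_al.ExactComplexity

open Pool.Agent.W_59b51d_h18 (Poly code Multilinear)

/-- The algebra `A` satisfies the identities `f t = 0`, `t = 0, 1, 2, …`. -/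
def Satisfies {F : Type} [Field F] (A : Type) [NonUnitalNonAssocRing A] [Module F A]
    (f : ℕ → Poly F ℕ) : Prop :=
  ∀ (t : ℕ) (v : ℕ → A), (f t).eval v = 0

/-- The polynomial `w` is `0` in the algebra which is presented by the generators `X` and the
relators `r` in the variety of the `F`-algebras with the identities `f t = 0`, `t = 0, 1, 2, …`: it
vanishes at every family of elements, satisfying the relators, of every algebra of the variety. -/
def Vanishes (F : Type) [Field F] (f : ℕ → Poly F ℕ) {X : Type} (r : List (Poly F X))
    (w : Poly F X) : Prop :=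
  ∀ (A : Type) [NonUnitalNonAssocRing A] [Module F A] [IsScalarTower F A A]
    [SMulCommClass F A A], Satisfies A f → ∀ a : X → A, (∀ p ∈ r, p.eval a = 0) → w.eval a = 0

/-- The algebra presented by the generators `0, …, n - 1` and the relators `r` in the variety given
by the identities `f t = 0` has solvable word problem: some computable function tells from the list
of the coded terms of `w` whether `w` is `0` in this algebra. -/
def Solvable (F : Type) [Field F] [Primcodable F] (f : ℕ → Poly F ℕ) {n : ℕ}
    (r : List (Poly F (Fin n))) : Prop :=
  ∃ g : List (F × ℕ) → Bool, Computable g ∧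
    ∀ w : Poly F (Fin n), g (w.map fun q => (q.1, code q.2)) = true ↔ Vanishes F f r w

/-- Every algebra finitely presented in the variety given by the identities `f t = 0` has solvable
word problem. -/
def AllSolvable (F : Type) [Field F] [Primcodable F] (f : ℕ → Poly F ℕ) : Prop :=
  ∀ (n : ℕ) (r : List (Poly F (Fin n))), Solvable F f r

/-- The code of a monomial in the variables `0, 1, 2, …`. -/
def mcode : FreeMagma ℕ → ℕ
  | .of i => 2 * i
  | .mul s t => 2 * Nat.pair (mcode s) (mcode t) + 1

/-- The code of a polynomial in the variables `0, 1, 2, …`: the list of its coded terms. -/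
def pcode {K : Type} (f : List (K × FreeMagma ℕ)) : List (K × ℕ) :=
  f.map fun q => (q.1, mcode q.2)

/-- The polynomial with integer coefficients as a polynomial over `F`. -/
def poly (F : Type) [Field F] (f : List (ℤ × FreeMagma ℕ)) : Poly F ℕ :=
  f.map fun q => ((q.1 : F), q.2)

theorem mcode_eq (s : FreeMagma ℕ) : mcode s = Pool.Agent.W_59b51d_c25.mcode s := by
  induction s with
  | ih1 x => rfl
  | ih2 s t hs ht =>
    change 2 * Nat.pair (mcode s) (mcode t) + 1 = _
    rw [hs, ht]
    rfl

theorem pcode_eq {K : Type} (f : List (K × FreeMagma ℕ)) :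
    pcode f = Pool.Agent.W_59b51d_c25.pcode f := by
  unfold pcode Pool.Agent.W_59b51d_c25.pcode
  exact List.map_congr_left fun q _ => by rw [mcode_eq]

/-- The class of the varieties, all of whose finitely presented algebras have solvable word problem,
is exactly `Π⁰₄`-complete:
* for every computable relation `R` on the natural numbers there is a computable double sequence
  `f k t` of polynomials, sums of multilinear monomials with coefficients `1` and `-1`, which are
  all of degree at least `t`, where `f k 0` is `(x₀ x₁) (x₂ x₃)`, such that over every computable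
  field `F` and for all `k`: every algebra finitely presented in the variety given by the identities
  `f k t = 0`, `t = 0, 1, 2, …`, has solvable word problem if and only if for all `a` there is `b`
  such that for all `c` there is `d` with `R k a b c d`;
* conversely, for every computable field `F` and every computable double sequence `f k t` of
  polynomials over `F` the set of the `k`, such that every algebra finitely presented in the variety
  given by the identities `f k t = 0`, `t = 0, 1, 2, …`, has solvable word problem, is of this
  form. -/
theorem result :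
    (∀ R : ℕ → ℕ → ℕ → ℕ → ℕ → Bool,
      (Computable fun p : ℕ × ℕ × ℕ × ℕ × ℕ => R p.1 p.2.1 p.2.2.1 p.2.2.2.1 p.2.2.2.2) →
      ∃ f : ℕ → ℕ → List (ℤ × FreeMagma ℕ), (Computable₂ fun k t => pcode (f k t)) ∧
        (∀ k, f k 0 =
          [(1, (FreeMagma.of 0 * FreeMagma.of 1) * (FreeMagma.of 2 * FreeMagma.of 3))]) ∧
        (∀ k t, ∀ q ∈ f k t, (q.1 = 1 ∨ q.1 = -1) ∧ Multilinear q.2 ∧ t ≤ q.2.length) ∧
        ∀ (F : Type) [Field F] [Primcodable F], (Computable₂ fun a b : F => a + b) →
          (Computable₂ fun a b : F => a * b) → ∀ k,
          (AllSolvable F (fun t => poly F (f k t)) ↔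
            ∀ a, ∃ b, ∀ c, ∃ d, R k a b c d = true)) ∧
    ∀ (F : Type) [Field F] [Primcodable F], (Computable₂ fun a b : F => a + b) →
      (Computable₂ fun a b : F => a * b) → ∀ f : ℕ → ℕ → Poly F ℕ,
      (Computable₂ fun k t => pcode (f k t)) →
      ∃ R : ℕ → ℕ → ℕ → ℕ → ℕ → Bool,
        (Computable fun p : ℕ × ℕ × ℕ × ℕ × ℕ => R p.1 p.2.1 p.2.2.1 p.2.2.2.1 p.2.2.2.2) ∧
        ∀ k, (AllSolvable F (f k) ↔ ∀ a, ∃ b, ∀ c, ∃ d, R k a b c d = true) := by
  constructor
  · intro R hR
    obtain ⟨f, h1, h2, h3, h4⟩ := Pool.Agent.W_59b51d_c25.lower R hR
    refine ⟨f, ?_, h2, h3, fun F _ _ hadd hmul k => h4 F hadd hmul k⟩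
    exact h1.of_eq fun p => (pcode_eq _).symm
  · intro F _ _ hadd hmul f hf
    have h1 : Computable₂ fun k t => Pool.Agent.W_59b51d_c25.pcode (f k t) :=
      Computable.of_eq hf fun p => pcode_eq _
    exact Pool.Agent.W_59b51d_c25.upper F hadd hmul f h1

end Pool.Agent.Results.MP_59b51d_al.ExactComplexity
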