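import Pool.Agent.W_59b51d_h18.Defs
import Pool.Agent.W_59b51d_h18.Undec

/-!
# One multilinear monomial identity with unsolvable word problem

There is a multilinear nonassociative monomial `t` such that, over every (countable, coded) field,
some algebra finitely presented in the variety of all algebras with the identity `t = 0` has
unsolvable word problem.
-/

namespace Pool.Agent.Results.MP_59b51d_al.MonomialUndecidable

open Pool.Agent.W_59b51d_h18

theorem result : ∃ t : FreeMagma ℕ, Multilinear t ∧
    ∀ (F : Type) [Field F] [Primcodable F], ∃ (n : ℕ) (r : List (Poly F (Fin n))),
      ¬ Solvable F [t] r :=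
  exists_monomial

end Pool.Agent.Results.MP_59b51d_al.MonomialUndecidable
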