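import Pool.Agent.W_59b51d_h35.Main
import Pool.Agent.W_59b51d_h35.Examples2

/-!
# Varieties given by monomial identities: the two-cover theorem

A fork is a product of two products, and `t` is an instance of `s` if it is obtained from `s` by
substituting monomials for variables. Let `T` be a finite list of multilinear nonassociative
monomials. The reachable sets are the sets obtained from the empty set by passing, finitely often,
from `S` to a set of left factors, or to a set of right factors, of members of `S ∪ T`. A set `X`
of monomials is chainlike if for `a * b` and `c * d` in `X` one of `a * d`, `c * b` is an instance
of a member of `X`. The two-cover condition says that for every reachable `S` there are two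
chainlike sets of forks in `S ∪ T` such that every fork in `S ∪ T` is an instance of a member of
one of them or of a member of `S ∪ T` which is not a fork.

Under this condition every algebra which is finitely presented in the variety given by `T`, over a
computable field, has solvable word problem. The condition holds if every member of `T` has height
at most `3` or degree at most `6` (`twoCover_of_small`), if `T` is a single monomial of height at
most `5` (`twoCover_single`), and under the fork condition of `W_59b51d_h18/SCond.lean`
(`twoCover_of_forkCondition`), for example if `T` has no forks, or at most two incomparable forks,
or if `T` is the monomial `full k 0`, whose variety consists of the algebras solvable of index at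
most `k`.
-/

namespace Pool.Agent.Results.MP_59b51d_al.TwoCoverTheorem

open Pool.Agent.W_59b51d_h18 Pool.Agent.W_59b51d_h35

theorem result (T : List (FreeMagma ℕ)) (hT : ∀ t ∈ T, Multilinear t)
    (hcond : TwoCover T ∨ (∀ t ∈ T, height t ≤ 3 ∨ (vars t).length ≤ 6) ∨
      (T.length = 1 ∧ ∀ t ∈ T, height t ≤ 5))
    (F : Type) [Field F] [Primcodable F] (hadd : Computable₂ fun a b : F => a + b)
    (hmul : Computable₂ fun a b : F => a * b) (n : ℕ) (r : List (Poly F (Fin n))) :
    Solvable F T r := by
  refine solvable_of_twoCover T hT ?_ F hadd hmul n r
  rcases hcond with h | h | ⟨h1, h⟩
  · exact h
  · exact twoCover_of_small hT h
  · obtain ⟨t, rfl⟩ := List.length_eq_one_iff.1 h1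
    exact twoCover_single (hT t (List.mem_singleton_self t)) (h t (List.mem_singleton_self t))

end Pool.Agent.Results.MP_59b51d_al.TwoCoverTheorem
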