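import Pool.Agent.W_59b51d_v18.One

/-!
# No algorithm recognizes the varieties whose finitely presented algebras have solvable word problem

Varieties of nonassociative algebras over a computable field, given by one identity `f = 0`. It is
undecidable for given `f` whether all finitely presented algebras of the variety have solvable word
problem, even when `f` is a sum of a fixed number of multilinear monomials with signs which implies
`(a b) (c d) = 0`, and only one of the monomials varies.
-/

namespace Pool.Agent.Results.MP_59b51d_al.UndecidableMembership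

open Pool.Agent.W_59b51d_h18 (Poly code Multilinear)

/-- The algebra `A` satisfies the identity `f = 0`. -/
def Satisfies {F : Type} [Field F] (A : Type) [NonUnitalNonAssocRing A] [Module F A]
    (f : Poly F ℕ) : Prop :=
  ∀ v : ℕ → A, f.eval v = 0

/-- The polynomial `w` is `0` in the algebra which is presented by the generators `X` and the
relators `r` in the variety of the `F`-algebras with the identity `f = 0`: it vanishes at every
family of elements, satisfying the relators, of every algebra of the variety. -/
def Vanishes (F : Type) [Field F] (f : Poly F ℕ) {X : Type} (r : List (Poly F X))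
    (w : Poly F X) : Prop :=
  ∀ (A : Type) [NonUnitalNonAssocRing A] [Module F A] [IsScalarTower F A A]
    [SMulCommClass F A A], Satisfies A f → ∀ a : X → A, (∀ p ∈ r, p.eval a = 0) → w.eval a = 0

/-- The algebra presented by the generators `0, …, n - 1` and the relators `r` in the variety given
by the identity `f = 0` has solvable word problem: some computable function tells from the list of
the coded terms of `w` whether `w` is `0` in this algebra. -/
def Solvable (F : Type) [Field F] [Primcodable F] (f : Poly F ℕ) {n : ℕ}
    (r : List (Poly F (Fin n))) : Prop :=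
  ∃ g : List (F × ℕ) → Bool, Computable g ∧
    ∀ w : Poly F (Fin n), g (w.map fun q => (q.1, code q.2)) = true ↔ Vanishes F f r w

/-- Every algebra finitely presented in the variety given by the identity `f = 0` has solvable word
problem. -/
def AllSolvable (F : Type) [Field F] [Primcodable F] (f : Poly F ℕ) : Prop :=
  ∀ (n : ℕ) (r : List (Poly F (Fin n))), Solvable F f r

/-- The code of a monomial in the variables `0, 1, 2, …`. -/
def mcode : FreeMagma ℕ → ℕ
  | .of i => 2 * i
  | .mul s t => 2 * Nat.pair (mcode s) (mcode t) + 1

/-- The code of a polynomial in the variables `0, 1, 2, …`: the list of its coded terms. -/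
def pcode {F : Type} (f : Poly F ℕ) : List (F × ℕ) := f.map fun q => (q.1, mcode q.2)

/-- The polynomial with integer coefficients as a polynomial over `F`. -/
def poly (F : Type) [Field F] (f : List (ℤ × FreeMagma ℕ)) : Poly F ℕ :=
  f.map fun q => ((q.1 : F), q.2)

/-- The polynomial `f` has `n` terms, all its coefficients are `1` or `-1`, all its monomials are
multilinear, and every algebra with the identity `f = 0` satisfies `(a b) (c d) = 0`. -/
structure Signed (F : Type) [Field F] (n : ℕ) (f : Poly F ℕ) : Prop where
  len : f.length = n
  coef : ∀ q ∈ f, q.1 = 1 ∨ q.1 = -1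
  mult : ∀ q ∈ f, Multilinear q.2
  metab : ∀ (A : Type) [NonUnitalNonAssocRing A] [Module F A], Satisfies A f →
    ∀ a b c d : A, (a * b) * (c * d) = 0

theorem mcode_eq (s : FreeMagma ℕ) : mcode s = Pool.Agent.W_59b51d_u18.mcode s := by
  induction s with
  | ih1 x => rfl
  | ih2 s t hs ht =>
    change 2 * Nat.pair (mcode s) (mcode t) + 1 = _
    rw [hs, ht]
    rfl

theorem pcode_eq {F : Type} (f : Poly F ℕ) : pcode f = Pool.Agent.W_59b51d_h42.pcode f := by
  unfold pcode Pool.Agent.W_59b51d_h42.pcode
  exact List.map_congr_left fun q _ => by rw [mcode_eq]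

theorem signed_iff (F : Type) [Field F] (n : ℕ) (f : Poly F ℕ) :
    Signed F n f ↔ Pool.Agent.W_59b51d_v18.Signed F n f :=
  ⟨fun h => ⟨h.len, h.coef, h.mult, h.metab⟩, fun h => ⟨h.len, h.coef, h.mult, h.metab⟩⟩

/-- There are a fixed polynomial `f0`, a sum of multilinear monomials with signs, a computable
sequence `t` of multilinear monomials, a monomial `s` in one variable and a many-one complete
recursively enumerable set `K` of natural numbers such that over every computable field `F`:
* for all `k`, the polynomial `t k + f0` has the properties `Signed`; if `k` is in `K`, then every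
  algebra finitely presented in the variety given by the identity `t k + f0 = 0` has solvable word
  problem; if `k` is not in `K`, then the algebra presented in this variety by one generator `x` and
  the one relator `s - x x` has unsolvable word problem;
* hence no algorithm decides, given a polynomial `f` with the properties `Signed`, whether every
  algebra finitely presented in the variety given by `f = 0` has solvable word problem;
* and the set of these `f` for which some finitely presented algebra has unsolvable word problem is
  not recursively enumerable. -/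
theorem result : ∃ (f0 : List (ℤ × FreeMagma ℕ)) (t : ℕ → FreeMagma ℕ) (s : FreeMagma (Fin 1))
    (K : ℕ → Prop), (∀ q ∈ f0, (q.1 = 1 ∨ q.1 = -1) ∧ Multilinear q.2) ∧
    (∀ k, Multilinear (t k)) ∧ (Computable fun k => mcode (t k)) ∧ REPred K ∧
    (∀ p : ℕ → Prop, REPred p → ∃ g : ℕ → ℕ, Computable g ∧ ∀ n, p n ↔ K (g n)) ∧
    ∀ (F : Type) [Field F] [Primcodable F],
      (Computable₂ fun a b : F => a + b) → (Computable₂ fun a b : F => a * b) →
      (∀ k, Signed F (f0.length + 1) (poly F ((1, t k) :: f0)) ∧
        (K k → AllSolvable F (poly F ((1, t k) :: f0))) ∧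
        (¬ K k → ¬ Solvable F (poly F ((1, t k) :: f0))
          [[(1, s), (-1, FreeMagma.of 0 * FreeMagma.of 0)]])) ∧
      (¬ ∃ g : List (F × ℕ) → Bool, Computable g ∧ ∀ f : Poly F ℕ,
        Signed F (f0.length + 1) f → (g (pcode f) = true ↔ AllSolvable F f)) ∧
      (¬ ∃ P : List (F × ℕ) → Prop, REPred P ∧ ∀ f : Poly F ℕ,
        Signed F (f0.length + 1) f → (P (pcode f) ↔ ¬ AllSolvable F f)) := by
  obtain ⟨f0, t, b, K, h1, h2, h3, h4, h5, h6⟩ := Pool.Agent.W_59b51d_v18.final
  refine ⟨f0, t, Pool.Agent.W_59b51d_u18.act (FreeMagma.of 0 * FreeMagma.of 0)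
    (Pool.Agent.W_59b51d_u18.ccol b (FreeMagma.of 0)), K, h1, h2, ?_, h4, h5, ?_⟩
  · exact h3.of_eq fun k => (mcode_eq (t k)).symm
  · intro F _ _ hadd hmul
    obtain ⟨g1, g2, g3⟩ := h6 F hadd hmul
    refine ⟨fun k => ⟨(signed_iff F _ _).2 (g1 k).1, (g1 k).2.1, (g1 k).2.2⟩, ?_, ?_⟩
    · rintro ⟨g, hg, h⟩
      exact g2 ⟨g, hg, fun f hf => by
        rw [← pcode_eq]
        exact h f ((signed_iff F _ _).2 hf)⟩
    · rintro ⟨P, hP, h⟩
      exact g3 ⟨P, hP, fun f hf => by
        rw [← pcode_eq]
        exact h f ((signed_iff F _ _).2 hf)⟩

end Pool.Agent.Results.MP_59b51d_al.UndecidableMembership
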